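import Mathlib
import Pool.Agent.H622R3.SP.Metric
import Pool.Agent.Results.MP_31d0eb_nt.AllScales

set_option autoImplicit false

/-!
# Primes just above the powers of almost every real number

The question is whether `[2 ^ n, 2 ^ n + p_n]` always contains a prime.  Here the base `2` is
replaced by a real number `α > 1`: for almost every `α` a set of integers `n` of positive upper
density is such that `[α ^ n, α ^ n + H]` contains the right number of primes, up to constants, for
ALL `H` from a constant times `log (α ^ n)` up to `α ^ n / 2`; in particular `[α ^ n, α ^ n + p_n]`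
contains between `(1 - δ) log n / log α` and `C log n / log α` primes.

The integers from which the primes have the right order at all scales have positive lower density
(starting result `MP_31d0eb_nt.AllScales`, sieve and covering); a metric lemma
(`Pool.Agent.H622R3.SP.Metric`, never used in a starting result) brings `α ^ (b n)` there.
-/

namespace Pool.Agent.Results.MP_78b39f_nt.AlmostEveryBase

open Filter MeasureTheory Topology
open Pool.Agent.H357R2.SI

/-- The number of primes `p` with `x ≤ p ≤ x + H`. -/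
noncomputable def primesFrom (x H : ℝ) : ℕ := {p : ℕ | p.Prime ∧ x ≤ p ∧ (p : ℝ) ≤ x + H}.ncard

/-- The `n`-th prime `p_n`, with `p_1 = 2`. -/
noncomputable def nthPrime (n : ℕ) : ℕ := Nat.nth Nat.Prime (n - 1)

/-- The set `E` has upper density at least `c`, in the strong sense that for arbitrarily large `N`
at least `c N` integers `n < N` belong to `E`. -/
def UpperDensityAtLeast (c : ℝ) (E : Set ℕ) : Prop :=
  ∃ᶠ N : ℕ in atTop, c * N ≤ ({n : ℕ | n < N ∧ n ∈ E}.ncard : ℝ)

lemma finP (x H : ℝ) : {p : ℕ | p.Prime ∧ x ≤ p ∧ (p : ℝ) ≤ x + H}.Finite := by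
  refine (Set.finite_Iic ⌊x + H⌋₊).subset fun p hp => ?_
  exact Nat.le_floor hp.2.2

/-- comparison with the integer `m = ⌊x⌋`, lower bound -/
lemma from_ge {m : ℕ} {x H : ℝ} (h1 : (m : ℝ) < x) (h2 : x < m + 1) (hH : 0 ≤ H) :
    piS m H ≤ primesFrom x H := by
  unfold piS primesFrom
  rw [← Set.ncard_coe_finset]
  apply Set.ncard_le_ncard _ (finP x H)
  intro p hp
  simp only [Finset.coe_filter, Finset.mem_Ioc, Set.mem_ofPred_eq, Nat.floor_natCast] at hp ⊢
  obtain ⟨⟨h3, h4⟩, h5⟩ := hp
  have h6 : (m : ℝ) + 1 ≤ p := by exact_mod_cast h3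
  have h7 : (p : ℝ) ≤ m + H := (Nat.le_floor_iff (by positivity)).1 h4
  exact ⟨h5, by linarith, by linarith⟩

/-- comparison with the integer `m = ⌊x⌋`, upper bound -/
lemma from_le {m : ℕ} {x H : ℝ} (h1 : (m : ℝ) < x) (h2 : x < m + 1) (_hH : 0 ≤ H) :
    primesFrom x H ≤ piS m (H + 1) := by
  unfold piS primesFrom
  rw [← Set.ncard_coe_finset]
  apply Set.ncard_le_ncard _ (Finset.finite_toSet _)
  intro p hp
  simp only [Finset.coe_filter, Finset.mem_Ioc, Set.mem_ofPred_eq, Nat.floor_natCast] at hp ⊢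
  obtain ⟨h3, h4, h5⟩ := hp
  refine ⟨⟨?_, ?_⟩, h3⟩
  · have : (m : ℝ) < p := by linarith
    exact_mod_cast this
  · exact Nat.le_floor (by linarith)

/-- The condition on the integers. -/
def SS (δ K lam : ℝ) : Set ℕ := {n : ℕ | ∀ H : ℝ, K * Real.log n ≤ H → H ≤ n →
  (1 - δ) * H / Real.log n ≤ piS n H ∧ (piS n H : ℝ) ≤ lam * H / Real.log n}

/-- Transfer from the integer `m` to the real numbers in `(m, m + 1)`. -/
lemma transfer {δ K lam : ℝ} (hδ0 : 0 < δ) (hδ1 : δ < 1) (hK : 0 < K) (hlam : 0 < lam) :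
    ∃ X₀ : ℝ, 3 ≤ X₀ ∧ ∀ x : ℝ, X₀ ≤ x → (∃ m ∈ SS δ K lam, (m : ℝ) < x ∧ x < m + 1) →
      ∀ H : ℝ, K * Real.log x ≤ H → H ≤ x / 2 →
        (1 - δ) * H / Real.log x ≤ primesFrom x H ∧
          (primesFrom x H : ℝ) ≤ 4 * lam * H / Real.log x := by
  refine ⟨max 16 (Real.exp (1 / K)), le_trans (by norm_num) (le_max_left _ _), ?_⟩
  rintro x hx ⟨m, hm, h1, h2⟩ H hH1 hH2
  have hx16 : (16 : ℝ) ≤ x := (le_max_left _ _).trans hx
  have hm15 : (15 : ℝ) ≤ m := by linarith
  have hlm : 0 < Real.log m := Real.log_pos (by linarith)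
  have hlx : 0 < Real.log x := Real.log_pos (by linarith)
  have hlmx : Real.log m ≤ Real.log x := Real.log_le_log (by linarith) h1.le
  have hKx : 1 ≤ K * Real.log x := by
    have h3 : Real.exp (1 / K) ≤ x := (le_max_right _ _).trans hx
    have h4 : 1 / K ≤ Real.log x := (Real.le_log_iff_exp_le (by linarith)).2 h3
    rw [div_le_iff₀ hK] at h4
    linarith
  have hH0 : 1 ≤ H := hKx.trans hH1
  have hl2 : Real.log x ≤ 2 * Real.log m := by
    have h3 : x ≤ (m : ℝ) ^ 2 := by nlinarith
    calc Real.log x ≤ Real.log ((m : ℝ) ^ 2) := Real.log_le_log (by linarith) h3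
      _ = 2 * Real.log m := by rw [Real.log_pow]; norm_num
  constructor
  · have h3 := (hm H ((mul_le_mul_of_nonneg_left hlmx hK.le).trans hH1) (by linarith)).1
    have h4 : (piS m H : ℝ) ≤ primesFrom x H := by exact_mod_cast from_ge h1 h2 (by linarith)
    have h5 : (1 - δ) * H / Real.log x ≤ (1 - δ) * H / Real.log m :=
      div_le_div_of_nonneg_left (mul_nonneg (by linarith) (by linarith)) hlm hlmx
    linarith
  · have h3 := (hm (H + 1) (((mul_le_mul_of_nonneg_left hlmx hK.le).trans hH1).trans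
      (by linarith)) (by linarith)).2
    have h4 : (primesFrom x H : ℝ) ≤ piS m (H + 1) := by
      exact_mod_cast from_le h1 h2 (by linarith)
    refine (h4.trans h3).trans ?_
    rw [div_le_div_iff₀ hlm hlx]
    have h5 : lam * (H + 1) ≤ lam * (2 * H) := mul_le_mul_of_nonneg_left (by linarith) hlam.le
    calc lam * (H + 1) * Real.log x ≤ lam * (2 * H) * (2 * Real.log m) := by
          apply mul_le_mul h5 hl2 hlx.le (by positivity)
      _ = 4 * lam * H * Real.log m := by ring

open Classical in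
lemma upper_mono {c : ℝ} (hc : 0 < c) {E E' : Set ℕ}
    (h : ∃ᶠ N : ℕ in atTop, c * N ≤ (((Finset.range N).filter (fun n : ℕ => n ∈ E')).card : ℝ))
    (hE : ∀ᶠ n : ℕ in atTop, n ∈ E' → n ∈ E) : UpperDensityAtLeast (c / 2) E := by
  obtain ⟨M, hM⟩ := hE.exists_forall_of_atTop
  have hlarge : ∀ᶠ N : ℕ in atTop, (M : ℝ) ≤ c / 2 * N := by
    have h1 : Tendsto (fun N : ℕ => c / 2 * (N : ℝ)) atTop atTop :=
      (tendsto_natCast_atTop_atTop (R := ℝ)).const_mul_atTop (by positivity)
    exact h1.eventually_ge_atTop _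
  refine (h.and_eventually hlarge).mono ?_
  rintro N ⟨h1, h2⟩
  have h3 : (Finset.range N).filter (fun n : ℕ => n ∈ E') ⊆
      (Finset.range N).filter (fun n : ℕ => n ∈ E) ∪ Finset.range M := by
    intro n hn
    rw [Finset.mem_filter, Finset.mem_range] at hn
    rw [Finset.mem_union, Finset.mem_filter, Finset.mem_range, Finset.mem_range]
    rcases lt_or_ge n M with h4 | h4
    · exact Or.inr h4
    · exact Or.inl ⟨hn.1, hM n h4 hn.2⟩
  have h4 := (Finset.card_le_card h3).trans (Finset.card_union_le _ _)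
  rw [Finset.card_range] at h4
  have h5 : (((Finset.range N).filter (fun n : ℕ => n ∈ E')).card : ℝ) ≤
      ((Finset.range N).filter (fun n : ℕ => n ∈ E)).card + M := by exact_mod_cast h4
  have h6 : {n : ℕ | n < N ∧ n ∈ E}.ncard = ((Finset.range N).filter (fun n : ℕ => n ∈ E)).card := by
    rw [← Set.ncard_coe_finset]
    congr 1
    ext n
    simp
  rw [h6]
  linarith

/-- `p_n` is between `(1 - ε) n log n` and `4 n log n`. -/
lemma nthPrime_bounds (ε : ℝ) (hε0 : 0 < ε) (hε1 : ε < 1) : ∀ᶠ n : ℕ in atTop,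
    (1 - ε) * (n * Real.log n) ≤ nthPrime n ∧ (nthPrime n : ℝ) ≤ 4 * (n * Real.log n) := by
  obtain ⟨X₁, hX3, hX⟩ := pnt (min ε (1 / 2)) (lt_min hε0 (by norm_num))
  have hsq : ∀ᶠ x : ℝ in atTop, 2 * Real.log x ≤ x ^ ((1 : ℝ) / 2) := by
    have h := isLittleO_log_rpow_atTop (show (0 : ℝ) < 1 / 2 by norm_num)
    have h2 := h.bound (show (0 : ℝ) < 1 / 2 by norm_num)
    filter_upwards [h2, eventually_ge_atTop 1] with x hx hx1
    rw [Real.norm_of_nonneg (Real.log_nonneg hx1), Real.norm_of_nonneg (by positivity)] at hx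
    linarith
  obtain ⟨X₂, hX₂⟩ := (hsq.and (eventually_ge_atTop (0 : ℝ))).exists_forall_of_atTop
  filter_upwards [eventually_ge_atTop (max X₁ (⌈X₂⌉₊ + 3))] with n hn
  set q := nthPrime n with hq
  have hn1 : 1 ≤ n := by have := le_max_right X₁ (⌈X₂⌉₊ + 3); omega
  have hqn : n + 1 ≤ q := by
    have := Nat.add_two_le_nth_prime (n - 1)
    simp only [hq, nthPrime]; omega
  have hπ : Nat.primeCounting q = n := by
    have h1 := Nat.primeCounting'_nth_eq (n - 1)
    have h2 : (q).Prime := Nat.prime_nth_prime (n - 1)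
    rw [Nat.primeCounting, Nat.primeCounting', Nat.count_succ, if_pos h2]
    have h3 : Nat.count Nat.Prime q = n - 1 := h1
    rw [h3]; omega
  have hqX : X₁ ≤ q := by have := le_max_left X₁ (⌈X₂⌉₊ + 3); omega
  obtain ⟨h1, h2⟩ := hX q hqX
  rw [hπ] at h1 h2
  have hn3 : (3 : ℝ) ≤ n := by
    have h3 : 3 ≤ n := by have := le_max_right X₁ (⌈X₂⌉₊ + 3); omega
    exact_mod_cast h3
  have hq3 : (3 : ℝ) < q := by
    have : (n : ℝ) + 1 ≤ q := by exact_mod_cast hqn
    linarith
  have hnq : (n : ℝ) ≤ q := by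
    have : (n : ℝ) + 1 ≤ q := by exact_mod_cast hqn
    linarith
  have hlq : 0 < Real.log q := Real.log_pos (by linarith)
  have hln : 0 < Real.log n := Real.log_pos (by linarith)
  have hlnq : Real.log n ≤ Real.log q := Real.log_le_log (by linarith) hnq
  rw [div_le_iff₀ hlq] at h1
  rw [le_div_iff₀ hlq] at h2
  have he1 : min ε (1 / 2) ≤ ε := min_le_left _ _
  have he2 : min ε (1 / 2) ≤ 1 / 2 := min_le_right _ _
  have hq0 : (0 : ℝ) < q := by linarith
  constructor
  · -- `n log n ≤ (1 + ε) q`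
    have h3 : (n : ℝ) * Real.log n ≤ (1 + ε) * q := by
      calc (n : ℝ) * Real.log n ≤ n * Real.log q := by
            apply mul_le_mul_of_nonneg_left hlnq (by linarith)
        _ ≤ (1 + min ε (1 / 2)) * q := h2
        _ ≤ (1 + ε) * q := by gcongr
    have h4 : (1 - ε) * ((1 + ε) * q) ≤ q := by nlinarith [mul_pos hε0 hε0]
    calc (1 - ε) * (n * Real.log n) ≤ (1 - ε) * ((1 + ε) * q) :=
          mul_le_mul_of_nonneg_left h3 (by linarith)
      _ ≤ q := h4
  · -- `q ≤ n ^ 2`, then `q ≤ 2 n log q ≤ 4 n log n`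
    have h3 : (q : ℝ) ≤ 2 * (n * Real.log q) := by nlinarith
    have hqX2 : X₂ ≤ q := by
      have h4 : ⌈X₂⌉₊ ≤ q := by have := le_max_right X₁ (⌈X₂⌉₊ + 3); omega
      exact (Nat.le_ceil X₂).trans (by exact_mod_cast h4)
    have h5 := (hX₂ q hqX2).1
    have h6 : (q : ℝ) ^ ((1 : ℝ) / 2) ≤ n := by
      have h7 : (q : ℝ) ≤ n * (q : ℝ) ^ ((1 : ℝ) / 2) := by
        calc (q : ℝ) ≤ n * (2 * Real.log q) := by linarith
          _ ≤ n * (q : ℝ) ^ ((1 : ℝ) / 2) := mul_le_mul_of_nonneg_left h5 (by linarith)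
      have h8 : (q : ℝ) = (q : ℝ) ^ ((1 : ℝ) / 2) * (q : ℝ) ^ ((1 : ℝ) / 2) := by
        rw [← Real.rpow_add hq0]; norm_num
      have h9 : 0 < (q : ℝ) ^ ((1 : ℝ) / 2) := Real.rpow_pos_of_pos hq0 _
      have h10 : (q : ℝ) ^ ((1 : ℝ) / 2) * (q : ℝ) ^ ((1 : ℝ) / 2) ≤
          n * (q : ℝ) ^ ((1 : ℝ) / 2) := by rw [← h8]; exact h7
      exact le_of_mul_le_mul_right h10 h9
    have h7 : Real.log q ≤ 2 * Real.log n := by
      have h8 : Real.log ((q : ℝ) ^ ((1 : ℝ) / 2)) ≤ Real.log n :=
        Real.log_le_log (Real.rpow_pos_of_pos hq0 _) h6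
      rw [Real.log_rpow hq0] at h8
      linarith
    calc (q : ℝ) ≤ 2 * (n * Real.log q) := h3
      _ ≤ 2 * (n * (2 * Real.log n)) := by
          have hn0 : (0 : ℝ) ≤ n := by linarith
          gcongr
      _ = 4 * (n * Real.log n) := by ring

/-- **Primes just above the powers of almost every real number.** For `0 < δ < 1` there are
`K, C, c > 0` such that (1) for every sequence `b n → ∞` and almost every real `α > 1` the upper
density of the `n` with `(1 - δ) H / log x ≤ #{p : x ≤ p ≤ x + H} ≤ C H / log x`, `x = α ^ (b n)`,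
for ALL `H` with `K log x ≤ H ≤ x / 2`, is at least `c`; (2) for almost every real `α > 1` the upper
density of the `n` such that the number of primes in `[α ^ n, α ^ n + p_n]` is between
`(1 - δ) log n / log α` and `C log n / log α`, is at least `c`. -/
theorem result :
    ∀ δ : ℝ, 0 < δ → δ < 1 → ∃ K C c : ℝ, 0 < K ∧ 0 < C ∧ 0 < c ∧
      (∀ b : ℕ → ℝ, Tendsto b atTop atTop → ∀ᵐ α : ℝ, 1 < α →
        UpperDensityAtLeast c {n : ℕ | ∀ H : ℝ,
          K * Real.log (α ^ b n) ≤ H → H ≤ α ^ b n / 2 →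
          (1 - δ) * H / Real.log (α ^ b n) ≤ primesFrom (α ^ b n) H ∧
          (primesFrom (α ^ b n) H : ℝ) ≤ C * H / Real.log (α ^ b n)}) ∧
      ∀ᵐ α : ℝ, 1 < α →
        UpperDensityAtLeast c {n : ℕ |
          (1 - δ) * Real.log n / Real.log α ≤ primesFrom (α ^ n) (nthPrime n) ∧
          (primesFrom (α ^ n) (nthPrime n) : ℝ) ≤ C * Real.log n / Real.log α} := by
  classical
  intro δ hδ0 hδ1
  obtain ⟨K, lam, c, hK, hlam, hc, hS⟩ :=
    Pool.Agent.Results.MP_31d0eb_nt.AllScales.result (δ / 2) (by positivity) (by linarith)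
  obtain ⟨X₀, hX3, hX⟩ := transfer (δ := δ / 2) (by positivity) (by linarith) hK hlam
  have hS' : ∀ᶠ N : ℕ in atTop,
      c * N ≤ (((Finset.range N).filter (fun m => m ∈ SS (δ / 2) K lam)).card : ℝ) := by
    filter_upwards [hS] with N hN
    refine hN.trans (le_of_eq ?_)
    congr 1
  refine ⟨K, 16 * lam, c / 4, hK, by positivity, by positivity, ?_, ?_⟩
  · intro b hb
    filter_upwards [Pool.Agent.H622R3.SP.metric (SS (δ / 2) K lam) c hc hS' b hb] with α hα hα1
    have h1 := hα hα1
    have hbig : ∀ᶠ n : ℕ in atTop, X₀ ≤ α ^ b n := by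
      have h2 : Tendsto (fun y : ℝ => α ^ y) atTop atTop := tendsto_rpow_atTop_of_base_gt_one α hα1
      exact (h2.comp hb).eventually_ge_atTop X₀
    have h3 := upper_mono (c := c / 2) (by positivity)
      (E' := {n : ℕ | ∃ m ∈ SS (δ / 2) K lam, (m : ℝ) < α ^ b n ∧ α ^ b n < m + 1})
      (E := {n : ℕ | ∀ H : ℝ,
          K * Real.log (α ^ b n) ≤ H → H ≤ α ^ b n / 2 →
          (1 - δ) * H / Real.log (α ^ b n) ≤ primesFrom (α ^ b n) H ∧
          (primesFrom (α ^ b n) H : ℝ) ≤ 16 * lam * H / Real.log (α ^ b n)})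
      (by simpa only [Set.mem_ofPred_eq] using h1) ?_
    · rw [show c / 4 = c / 2 / 2 by ring]; exact h3
    · filter_upwards [hbig] with n hn hn2 H hH1 hH2
      obtain ⟨h4, h5⟩ := hX _ hn hn2 H hH1 hH2
      have hlx : 0 < Real.log (α ^ b n) := Real.log_pos (by linarith)
      have hH0 : 0 ≤ H := le_trans (by positivity) hH1
      constructor
      · refine le_trans ?_ h4
        gcongr
        linarith
      · refine h5.trans ?_
        gcongr
        linarith
  · have hb : Tendsto (fun n : ℕ => (n : ℝ)) atTop atTop := tendsto_natCast_atTop_atTop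
    filter_upwards [Pool.Agent.H622R3.SP.metric (SS (δ / 2) K lam) c hc hS' _ hb] with α hα hα1
    have h1 := hα hα1
    have hα0 : 0 < α := by linarith
    have hlα : 0 < Real.log α := Real.log_pos hα1
    have hbig : ∀ᶠ n : ℕ in atTop, X₀ ≤ α ^ (n : ℝ) := by
      have h2 : Tendsto (fun y : ℝ => α ^ y) atTop atTop := tendsto_rpow_atTop_of_base_gt_one α hα1
      exact (h2.comp hb).eventually_ge_atTop X₀
    -- the length `p_n` is in the range
    have hlen1 : ∀ᶠ n : ℕ in atTop, K * Real.log (α ^ (n : ℝ)) ≤ nthPrime n := by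
      have h2 : Tendsto (fun n : ℕ => Real.log (n : ℝ)) atTop atTop :=
        Real.tendsto_log_atTop.comp hb
      filter_upwards [nthPrime_bounds (1 / 2) (by norm_num) (by norm_num),
        h2.eventually_ge_atTop (2 * (K * Real.log α))] with n hn1 hn2
      rw [Real.log_rpow hα0]
      refine le_trans ?_ hn1.1
      have hn0 : (0 : ℝ) ≤ n := Nat.cast_nonneg n
      nlinarith
    have hlen2 : ∀ᶠ n : ℕ in atTop, (nthPrime n : ℝ) ≤ α ^ (n : ℝ) / 2 := by
      have h2 : ∀ᶠ n : ℕ in atTop, (n : ℝ) ^ 2 ≤ 1 / 8 * α ^ n := by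
        have h3 := (isLittleO_pow_const_const_pow_of_one_lt (R := ℝ) 2 hα1).bound
          (show (0 : ℝ) < 1 / 8 by norm_num)
        filter_upwards [h3] with n hn
        rw [Real.norm_of_nonneg (by positivity), Real.norm_of_nonneg (by positivity)] at hn
        exact hn
      filter_upwards [nthPrime_bounds (1 / 2) (by norm_num) (by norm_num), h2,
        eventually_ge_atTop 1] with n hn1 hn2 hn3
      rw [Real.rpow_natCast]
      refine hn1.2.trans ?_
      have hn0 : (1 : ℝ) ≤ n := by exact_mod_cast hn3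
      have hl : Real.log n ≤ n := (Real.log_le_sub_one_of_pos (by linarith)).trans (by linarith)
      nlinarith
    have h3 := upper_mono (c := c / 2) (by positivity)
      (E' := {n : ℕ | ∃ m ∈ SS (δ / 2) K lam, (m : ℝ) < α ^ (n : ℝ) ∧ α ^ (n : ℝ) < m + 1})
      (E := {n : ℕ |
          (1 - δ) * Real.log n / Real.log α ≤ primesFrom (α ^ n) (nthPrime n) ∧
          (primesFrom (α ^ n) (nthPrime n) : ℝ) ≤ 16 * lam * Real.log n / Real.log α})
      (by simpa only [Set.mem_ofPred_eq] using h1) ?_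
    · rw [show c / 4 = c / 2 / 2 by ring]; exact h3
    · filter_upwards [hbig, hlen1, hlen2, nthPrime_bounds (δ / 2) (by positivity) (by linarith),
        eventually_ge_atTop 3] with n hn g1 g2 g3 g4 hn2
      obtain ⟨h4, h5⟩ := hX _ hn hn2 (nthPrime n) g1 g2
      rw [Real.log_rpow hα0, Real.rpow_natCast] at h4 h5
      have hn3 : (3 : ℝ) ≤ n := by exact_mod_cast g4
      have hn0 : (0 : ℝ) < n := by linarith
      have hln : 0 < Real.log n := Real.log_pos (by linarith)
      constructor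
      · refine le_trans ?_ h4
        rw [div_le_div_iff₀ hlα (by positivity)]
        have h6 : (1 - δ) * (n * Real.log n) ≤ (1 - δ / 2) * nthPrime n := by
          calc (1 - δ) * (n * Real.log n) ≤ (1 - δ / 2) * ((1 - δ / 2) * (n * Real.log n)) := by
                have h7 : 0 < (n : ℝ) * Real.log n := by positivity
                nlinarith [mul_pos hδ0 hδ0]
            _ ≤ (1 - δ / 2) * nthPrime n := mul_le_mul_of_nonneg_left g3.1 (by linarith)
        calc (1 - δ) * Real.log n * (n * Real.log α) = (1 - δ) * (n * Real.log n) * Real.log α := by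
              ring
          _ ≤ (1 - δ / 2) * nthPrime n * Real.log α := mul_le_mul_of_nonneg_right h6 hlα.le
      · refine h5.trans ?_
        rw [div_le_div_iff₀ (by positivity) hlα]
        calc 4 * lam * nthPrime n * Real.log α ≤ 4 * lam * (4 * (n * Real.log n)) * Real.log α := by
              have := g3.2
              gcongr
          _ = 16 * lam * Real.log n * (n * Real.log α) := by ring

end Pool.Agent.Results.MP_78b39f_nt.AlmostEveryBase
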