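import Mathlib
import Pool.Agent.R320.IT.Pow

set_option autoImplicit false

/-!
# The integral test for intervals just above powers in random models of the primes

The question is whether every interval `[2ⁿ, 2ⁿ + pₙ]` contains a prime (`pₙ` the `n`-th prime).
Consider a random set of integers which are decided one after the other; only integers coprime to a
fixed `Q` can be chosen, and the conditional probability of choosing `n + 1` (coprime to `Q`) given
the past is `(Q / φ(Q)) / D n`, where `D` varies slowly, `|D (n + 1) - D n| ≤ (K / n) |D n|`, and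
`D n - log n` converges almost surely, to a possibly random limit `C`.  (For `Q = 1`: Cramér's model,
`C = 0`, and the Hawkins random sieve, for which `C` is a non-degenerate random variable.)

Let `g ≥ 2` and let `h ≥ 0` be ANY function with `h(n) / (n log g)² → κ`, a finite limit.  The
theorem counts the `n` such that `[gⁿ, gⁿ + h(n)]` contains no member: if the series
`∑ exp (-h(n) / (n log g))` diverges, their number up to `N` is almost surely asymptotic to
`exp (κ (C - Q / (2 φ(Q))))` times the partial sum; if it converges there are almost surely only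
finitely many.  For `h(n) = pₙ` (so `κ = 0`) the series converges for `g = 2` and diverges for every
`g ≥ 3`.
-/

open MeasureTheory Filter
open scoped Topology

namespace Pool.Agent.Results.MP_78b39f_nt.IntegralTestAbovePowers

/-- `[gⁿ, gⁿ + y]` contains no element of `S` -/
def Misses (S : Set ℕ) (g n : ℕ) (y : ℝ) : Prop := ∀ m ∈ S, g ^ n ≤ m → ((g ^ n : ℕ) : ℝ) + y < m

/-- the number of the `n ≤ N` such that `[gⁿ, gⁿ + h(n)]` contains no element of `S` -/
noncomputable def count (S : Set ℕ) (g : ℕ) (h : ℕ → ℝ) (N : ℕ) : ℕ :=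
  Set.ncard {n : ℕ | n ≤ N ∧ Misses S g n (h n)}

/-- the terms of the test series -/
noncomputable def w (g : ℕ) (h : ℕ → ℝ) (n : ℕ) : ℝ := Real.exp (-(h n / ((n : ℝ) * Real.log g)))

/-- the `n`-th prime, `n ≥ 1`: `p 1 = 2`, `p 2 = 3`, ... -/
noncomputable def p (n : ℕ) : ℕ := Nat.nth Nat.Prime (n - 1)

end Pool.Agent.Results.MP_78b39f_nt.IntegralTestAbovePowers

open Pool.Agent.Results.MP_78b39f_nt.IntegralTestAbovePowers

/-- Let `A n` be the event that `n` belongs to a random set adapted to a filtration `ℱ`, let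
`Q ≥ 1`, let no integer which is not coprime to `Q` be chosen, and let, for `n ≥ n₀` with `n + 1`
coprime to `Q`, the conditional probability of `A (n + 1)` given `ℱ n` be `(Q / φ(Q)) / D n`, where
`D n` is `ℱ n`-measurable, `|D (n + 1) - D n| ≤ (K / n) |D n|` for `n ≥ n₀` and `D n - log n`
converges, almost surely.

(1) Let `g ≥ 2`, `h(n) ≥ 0` and `h(n) / (n log g)² → κ`.  Then almost surely, `C` being the limit of
`D n - log n`: if `∑ w(n)` diverges, the number of the `n ≤ N` for which `[gⁿ, gⁿ + h(n)]` contains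
no member, divided by `∑_{n ≤ N} w(n)`, tends to `exp (κ (C - Q / (2 φ(Q))))`; if it converges,
`[gⁿ, gⁿ + h(n)]` contains a member for all large `n`.

(2) Almost surely `[2ⁿ, 2ⁿ + pₙ]` contains a member for all large `n`, and for every `g ≥ 3` the
number of the `n ≤ N` for which `[gⁿ, gⁿ + pₙ]` contains no member is asymptotic to
`∑_{n ≤ N} exp (-pₙ / (n log g))`, a divergent series. -/
theorem Pool.Agent.Results.MP_78b39f_nt.IntegralTestAbovePowers.result
    {Ω : Type} [mΩ : MeasurableSpace Ω] (μ : Measure Ω) [IsProbabilityMeasure μ]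
    (ℱ : Filtration ℕ mΩ) (A : ℕ → Set Ω) (hA : ∀ n, MeasurableSet[ℱ n] (A n))
    (Q : ℕ) (hQ : 0 < Q) (hcop : ∀ n, ¬ Nat.Coprime n Q → A n = ∅)
    (D : ℕ → Ω → ℝ) (hD : ∀ n, StronglyMeasurable[ℱ n] (D n)) (K : ℝ) (n₀ : ℕ)
    (hK : ∀ᵐ ω ∂μ, ∀ n, n₀ ≤ n → |D (n + 1) ω - D n ω| ≤ K / n * |D n ω|)
    (hd : ∀ᵐ ω ∂μ, ∀ n, n₀ ≤ n → Nat.Coprime (n + 1) Q →
      (μ[(A (n + 1)).indicator (fun _ => (1 : ℝ)) | ℱ n]) ω = (Q : ℝ) / Nat.totient Q / D n ω)
    (hC : ∀ᵐ ω ∂μ, ∃ C : ℝ, Tendsto (fun n : ℕ => D n ω - Real.log n) atTop (𝓝 C)) :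
    (∀ g : ℕ, 2 ≤ g → ∀ h : ℕ → ℝ, (∀ n, 0 ≤ h n) → ∀ κ : ℝ,
      Tendsto (fun n : ℕ => h n / ((n : ℝ) * Real.log g) ^ 2) atTop (𝓝 κ) →
      ∀ᵐ ω ∂μ, ∃ C : ℝ, Tendsto (fun n : ℕ => D n ω - Real.log n) atTop (𝓝 C) ∧
        (¬ Summable (w g h) →
          Tendsto (fun N : ℕ => (count {k | ω ∈ A k} g h N : ℝ) / ∑ n ∈ Finset.range (N + 1), w g h n) atTop
            (𝓝 (Real.exp (κ * (C - (Q : ℝ) / Nat.totient Q / 2))))) ∧
        (Summable (w g h) → ∀ᶠ n : ℕ in atTop, ¬ Misses {k | ω ∈ A k} g n (h n))) ∧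
    ∀ᵐ ω ∂μ, (∀ᶠ n : ℕ in atTop, ¬ Misses {k | ω ∈ A k} 2 n (p n)) ∧
      ∀ g : ℕ, 3 ≤ g →
        Tendsto (fun N : ℕ => ∑ n ∈ Finset.range (N + 1), w g (fun n => (p n : ℝ)) n) atTop atTop ∧
        Tendsto (fun N : ℕ => (count {k | ω ∈ A k} g (fun n => (p n : ℝ)) N : ℝ) /
          ∑ n ∈ Finset.range (N + 1), w g (fun n => (p n : ℝ)) n) atTop (𝓝 1) := by
  have main := fun (g : ℕ) (hg : 2 ≤ g) (h : ℕ → ℝ) (h0 : ∀ n, 0 ≤ h n) (κ : ℝ)
    (hh : Tendsto (fun n : ℕ => h n / ((n : ℝ) * Real.log g) ^ 2) atTop (𝓝 κ)) =>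
    Pool.Agent.R320.IT.powers (μ := μ) (ℱ := ℱ) (A := A) hA hQ hcop hD hK hd hg h0 hh
  refine ⟨fun g hg h h0 κ hh => ?_, ?_⟩
  · filter_upwards [hC, main g hg h h0 κ hh] with ω ⟨C, hC⟩ h
    obtain ⟨h1, h2⟩ := h C hC
    exact ⟨C, hC, h1, h2⟩
  · have hp2 := main 2 le_rfl (fun n => (Pool.Agent.R320.IT.pp n : ℝ)) (fun n => Nat.cast_nonneg _) 0
        (Pool.Agent.R320.IT.pp_ratio le_rfl)
    have h3 : ∀ᵐ ω ∂μ, ∀ g : ℕ, 3 ≤ g → ∀ C : ℝ, Tendsto (fun n : ℕ => D n ω - Real.log n) atTop (𝓝 C) →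
        Tendsto (fun N : ℕ => (count {k | ω ∈ A k} g (fun n => (p n : ℝ)) N : ℝ) /
          ∑ n ∈ Finset.range (N + 1), w g (fun n => (p n : ℝ)) n) atTop (𝓝 1) := by
      refine ae_all_iff.2 fun g => ?_
      by_cases hg : 3 ≤ g
      · filter_upwards [main g (by omega) (fun n => (Pool.Agent.R320.IT.pp n : ℝ)) (fun n => Nat.cast_nonneg _) 0
          (Pool.Agent.R320.IT.pp_ratio (by omega))] with ω h _ C hC
        have h4 := (h C hC).1 (Pool.Agent.R320.IT.pp_not_summable hg)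
        rw [zero_mul, Real.exp_zero] at h4
        exact h4
      · exact Eventually.of_forall fun ω h => absurd h hg
    filter_upwards [hC, hp2, h3] with ω ⟨C, hC⟩ h2 h3
    refine ⟨(h2 C hC).2 Pool.Agent.R320.IT.pp_summable_two, fun g hg => ⟨?_, h3 g hg C hC⟩⟩
    exact (tendsto_add_atTop_iff_nat 1).2
      ((not_summable_iff_tendsto_nat_atTop_of_nonneg fun n => (Real.exp_pos _).le).1
        (Pool.Agent.R320.IT.pp_not_summable hg))
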