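import Pool.Agent.R306.One.LinD
import Pool.Agent.R306.One.NthP

/-!
# Almost primes just above the powers of almost every real number: laws

For an integer `m` let `X ≤ m < 2 X = 2 ^ (j + 1)`, where `X = 2 ^ j`.  A number `q` is good (for `m`) if it has
at most `r` prime factors, all larger than `X ^ (1 / r)`; `V` is the product of `1 - 1 / p` over the primes
`p ≤ X ^ (1 / r)`, and `t V` is the expected number of the good `q` in `(m, m + t]`.

Let `a_n ≥ 1` and `b_n ≥ 1` be real numbers such that `s_n = a_n + log b_n` is nondecreasing, tends to infinity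
and `s_{n+1} / s_n` is bounded, and let `m_n = ⌊b_n α ^ (a_n)⌋`.  The following holds for almost all `α > 1` and all
`r ≥ r0(ε)`; proportions of the `n < M` are taken with respect to the weights `log (s_{n+1} / s_n)`.

* Law of large numbers at the length of the question: the number of the good `q` in `(m, m + p_j]`, `m = m_n`, is
  `(1 + O(ε)) p_j V`, but for a set of `n` of upper density at most `ε`.  (The question is on the intervals
  `[2 ^ j, 2 ^ j + p_j]`; we attach the length `p_j` to all `m` between `2 ^ j` and `2 ^ (j + 1)`.)  The same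
  holds for all lengths between `L(j)` and `2 L(j)` at the same time, for every given function `L` with
  `K j ≤ L(j) ≤ 2 ^ (j / 10)`.
* Poisson law at the critical lengths: for `x > 0` the numbers of the good `q` in `(m, m + x / V]`, `m = m_n`,
  have the Poisson distribution with mean `x`, up to `ε`.

For `m_n = ⌊α ^ (n + 1)⌋` the weights are `log (1 + 1 / (n + 1))`, so these are statements on the logarithmic
density of `n`; for `a_n = 2 ^ n`, `b_n = 1` all weights are equal, and they are on the natural density.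

Proof.  Both laws hold for the `m` in all short windows `(Z, Z + Y]` with `Y ≥ X ^ (1/2)` (binomial moments,
`TH464.PO`).  With `y = log α`, a function `g(m_n)` of `y` is the sum of its average over the window
`[y, y + δ_n]`, `δ_n = exp(-κ s_n)`, and of a function `D_n`; since the variation of `D_n` is at most
`exp(C s_n)` and `D_m` has small means at the scale `δ_m`, the functions `D_n` and `D_m` are almost orthogonal if
`s_m` is larger than a constant times `s_n`.  So the second moment of `∑ w_n D_n` is `O(∑ w_n)`, and almost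
everywhere convergence follows.
-/

set_option autoImplicit false

open MeasureTheory Filter Topology Set Finset

namespace Pool.Agent.Results.MP_78b39f_nt.LawsAboveAlmostAll

/-- `q` has at most `r` prime factors (with multiplicity), all larger than `X ^ (1 / r)` -/
def Good (r X q : ℕ) : Prop :=
  q.primeFactorsList.length ≤ r ∧ ∀ p : ℕ, p.Prime → p ∣ q → (X : ℝ) ^ (1 / (r : ℝ)) < (p : ℝ)

open Classical in
/-- the number of the good integers `q` with `m < q ≤ m + t` -/
noncomputable def N (r X m t : ℕ) : ℕ := ((Finset.Ioc m (m + t)).filter (fun q => Good r X q)).card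

/-- the product of `1 - 1 / p` over the primes `p ≤ X ^ (1 / r)` -/
noncomputable def V (r X : ℕ) : ℝ :=
  ∏ p ∈ (Finset.Icc 1 ⌊(X : ℝ) ^ (1 / (r : ℝ))⌋₊).filter Nat.Prime, (1 - 1 / (p : ℝ))

/-- the largest power of two that is at most `m` -/
def X (m : ℕ) : ℕ := 2 ^ Nat.log 2 m

/-- the number of the good integers in `(m, m + t]` differs from the expected number `t V` by more
than `ε t V` -/
def Off (r : ℕ) (ε : ℝ) (m t : ℕ) : Prop :=
  ε * (t * V r (X m)) < |(N r (X m) m t : ℝ) - t * V r (X m)|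

/-- the `j`-th prime `p_j` (`p_1 = 2`), where `2 ^ j ≤ m < 2 ^ (j + 1)` -/
noncomputable def len (m : ℕ) : ℕ := Nat.nth Nat.Prime (Nat.log 2 m - 1)

/-- the weight `log (s_{n+1} / s_n)`, where `s_n = a_n + log b_n` -/
noncomputable def w (a b : ℕ → ℝ) (n : ℕ) : ℝ :=
  Real.log (a (n + 1) + Real.log (b (n + 1))) - Real.log (a n + Real.log (b n))

/-- the probability of `A` for the Poisson distribution with mean `x` -/
noncomputable def poisson (x : ℝ) (A : Finset ℕ) : ℝ := ∑ k ∈ A, Real.exp (-x) * x ^ k / k.factorial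

open Pool.Agent.R306.One

lemma V_eq (r j : ℕ) : V r (2 ^ j) = Pool.Agent.Y862.SQ.V1 (yy r j) := rfl

lemma length_le (z : ℝ) (hz : 0 < z) (L : List ℕ) (hL : ∀ p ∈ L, z ≤ (p : ℝ)) :
    z ^ L.length ≤ (L.prod : ℝ) := by
  induction L with
  | nil => simp
  | cons a l ih =>
    rw [List.length_cons, List.prod_cons, pow_succ, Nat.cast_mul]
    have h1 := ih (fun p hp => hL p (List.mem_cons_of_mem _ hp))
    have h2 := hL a List.mem_cons_self
    have h3 : 0 < z ^ l.length := by positivity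
    calc z ^ l.length * z ≤ (l.prod : ℝ) * a := by
          apply mul_le_mul h1 h2 hz.le (h3.le.trans h1)
      _ = _ := by ring

/-- good integers are the sifted ones -/
lemma good_iff (r X m : ℕ) (hr : 1 ≤ r) (h5 : 4 < (X : ℝ) ^ (1 / (r : ℝ))) (hm : 1 ≤ m)
    (hmX : m ≤ 4 * X) :
    Good r X m ↔ ∀ p ∈ Pool.Agent.Y862.SQ.pr ⌊(X : ℝ) ^ (1 / (r : ℝ))⌋₊, ¬ p ∣ m := by
  have hz0 : 0 ≤ (X : ℝ) ^ (1 / (r : ℝ)) := by positivity
  constructor
  · rintro ⟨-, h2⟩ p hp hd
    rw [Pool.Agent.Y862.SQ.pr, Finset.mem_filter, Finset.mem_Icc] at hp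
    have h3 := h2 p hp.2 hd
    have h4 : (p : ℝ) ≤ (X : ℝ) ^ (1 / (r : ℝ)) :=
      (Nat.le_floor_iff hz0).1 hp.1.2
    linarith
  · intro h
    have hbig : ∀ p : ℕ, p.Prime → p ∣ m → (X : ℝ) ^ (1 / (r : ℝ)) < (p : ℝ) := by
      intro p hp hd
      by_contra hcon
      push Not at hcon
      refine h p ?_ hd
      rw [Pool.Agent.Y862.SQ.pr, Finset.mem_filter, Finset.mem_Icc]
      exact ⟨⟨hp.one_lt.le, Nat.le_floor hcon⟩, hp⟩
    refine ⟨?_, hbig⟩
    by_contra hcon
    push Not at hcon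
    obtain ⟨z, hz⟩ : ∃ z : ℝ, z = (X : ℝ) ^ (1 / (r : ℝ)) := ⟨_, rfl⟩
    rw [← hz] at h5 hbig
    have h1 := length_le z (by linarith) m.primeFactorsList (fun p hp =>
      (hbig p (Nat.prime_of_mem_primeFactorsList hp) (Nat.dvd_of_mem_primeFactorsList hp)).le)
    rw [Nat.prod_primeFactorsList (by omega)] at h1
    have h2 : z ^ (r + 1) ≤ (m : ℝ) := (pow_le_pow_right₀ (by linarith) (by omega)).trans h1
    have h3 : z ^ r = X := by
      rw [hz, ← Real.rpow_natCast, ← Real.rpow_mul (Nat.cast_nonneg X), one_div,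
        inv_mul_cancel₀ (by positivity), Real.rpow_one]
    rw [pow_succ, h3] at h2
    have h6 : (m : ℝ) ≤ 4 * (X : ℝ) := by exact_mod_cast hmX
    have h7 : (0 : ℝ) < X := by
      rw [← h3]
      exact pow_pos (by linarith) r
    nlinarith

lemma N_eq {r j m t : ℕ} (hr : 1 ≤ r) (h5 : 4 < ((2 ^ j : ℕ) : ℝ) ^ (1 / (r : ℝ)))
    (hmt : m + t ≤ 4 * 2 ^ j) : N r (2 ^ j) m t = Nl (yy r j) t m := by
  classical
  unfold N Nl
  symm
  apply Finset.card_bij (fun h _ => m + h)
  · intro h hh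
    rw [Finset.mem_filter, Finset.mem_Icc] at hh
    rw [Finset.mem_filter, Finset.mem_Ioc]
    refine ⟨by omega, ?_⟩
    rw [good_iff r (2 ^ j) (m + h) hr h5 (by omega) (by omega)]
    exact hh.2
  · intro a _ b _ hab
    omega
  · intro q hq
    rw [Finset.mem_filter, Finset.mem_Ioc] at hq
    refine ⟨q - m, ?_, by omega⟩
    rw [Finset.mem_filter, Finset.mem_Icc]
    refine ⟨by omega, ?_⟩
    have h1 := (good_iff r (2 ^ j) q hr h5 (by omega) (by omega)).1 hq.2
    have h2 : m + (q - m) = q := by omega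
    rw [h2]
    exact h1

lemma ds_mono {ε : ℝ} {E F : Set ℕ} (h : DyadicSmall ε E) (j1 : ℕ)
    (hEF : ∀ m, 1 ≤ m → j1 ≤ Nat.log 2 m → m ∈ F → m ∈ E) : DyadicSmall ε F := by
  classical
  obtain ⟨j0, hj0⟩ := h
  refine ⟨max j0 j1, fun j hj Z Y hY h1 h2 => ?_⟩
  refine le_trans ?_ (hj0 j ((le_max_left _ _).trans hj) Z Y hY h1 h2)
  have hsub : (Finset.Ioc Z (Z + Y)).filter (fun n => n ∈ F) ⊆
      (Finset.Ioc Z (Z + Y)).filter (fun n => n ∈ E) := by
    intro n hn
    rw [Finset.mem_filter] at hn ⊢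
    have hlog := log_of_mem h1 h2 hn.1
    have h3 := Finset.mem_Ioc.1 hn.1
    exact ⟨hn.1, hEF n (by omega) (by rw [hlog]; exact (le_max_right _ _).trans hj) hn.2⟩
  exact_mod_cast Finset.card_le_card (by convert hsub)

lemma poisson_nonneg {x : ℝ} (hx : 0 ≤ x) (A : Finset ℕ) : 0 ≤ poisson x A := by
  unfold poisson
  positivity

lemma poisson_le_one {x : ℝ} (hx : 0 ≤ x) (A : Finset ℕ) : poisson x A ≤ 1 := by
  obtain ⟨n, hn⟩ : ∃ n, A ⊆ Finset.range n := ⟨A.sup id + 1, fun a ha => by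
    rw [Finset.mem_range]
    have : id a ≤ A.sup id := Finset.le_sup ha
    exact Nat.lt_succ_of_le this⟩
  have h1 : poisson x A ≤ ∑ k ∈ Finset.range n, Real.exp (-x) * x ^ k / k.factorial := by
    unfold poisson
    exact Finset.sum_le_sum_of_subset_of_nonneg hn fun _ _ _ => by positivity
  have h2 := Real.sum_le_exp_of_nonneg hx n
  have h3 : ∑ k ∈ Finset.range n, Real.exp (-x) * x ^ k / k.factorial =
      Real.exp (-x) * ∑ k ∈ Finset.range n, x ^ k / k.factorial := by
    rw [Finset.mul_sum]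
    exact Finset.sum_congr rfl fun k _ => by ring
  calc poisson x A ≤ _ := h1
    _ = Real.exp (-x) * ∑ k ∈ Finset.range n, x ^ k / k.factorial := h3
    _ ≤ Real.exp (-x) * Real.exp x := mul_le_mul_of_nonneg_left h2 (Real.exp_pos _).le
    _ = 1 := by rw [← Real.exp_add]; simp

/-- the threshold for the number of prime factors -/
lemma large {r : ℕ} (hr : 1 ≤ r) : ∀ᶠ j : ℕ in atTop, 4 < ((2 ^ j : ℕ) : ℝ) ^ (1 / (r : ℝ)) := by
  have hr0 : (0:ℝ) < r := by exact_mod_cast (by omega : 0 < r)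
  have h1 : Tendsto (fun j : ℕ => ((2 ^ j : ℕ) : ℝ)) atTop atTop := by
    simp only [cast_two_pow]
    exact tendsto_pow_atTop_atTop_of_one_lt one_lt_two
  exact ((tendsto_rpow_atTop (by positivity)).comp h1).eventually_gt_atTop 4

open Classical in
theorem result :
    -- the law of large numbers
    (∀ ε : ℝ, 0 < ε → ∃ (K : ℝ) (r0 : ℕ), ∀ a b : ℕ → ℝ, (∀ n, 1 ≤ a n) → (∀ n, 1 ≤ b n) →
      Monotone (fun n => a n + Real.log (b n)) → Tendsto (fun n => a n + Real.log (b n)) atTop atTop →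
      (∃ C : ℝ, ∀ n, a (n + 1) + Real.log (b (n + 1)) ≤ C * (a n + Real.log (b n))) →
      (∀ᵐ α : ℝ, 1 < α → ∀ r : ℕ, r0 ≤ r → ∀ᶠ M in atTop,
        (∑ n ∈ Finset.range M, if Off r ε ⌊b n * α ^ (a n)⌋₊ (len ⌊b n * α ^ (a n)⌋₊) then w a b n
          else 0) ≤ ε * ∑ n ∈ Finset.range M, w a b n) ∧
      ∀ L : ℕ → ℕ, (∀ᶠ j : ℕ in atTop, K * j ≤ L j ∧ (L j) ^ 10 ≤ 2 ^ j) →
        ∀ᵐ α : ℝ, 1 < α → ∀ r : ℕ, r0 ≤ r → ∀ᶠ M in atTop,
          (∑ n ∈ Finset.range M, if ∃ t, L (Nat.log 2 ⌊b n * α ^ (a n)⌋₊) ≤ t ∧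
              t ≤ 2 * L (Nat.log 2 ⌊b n * α ^ (a n)⌋₊) ∧ Off r ε ⌊b n * α ^ (a n)⌋₊ t then w a b n
            else 0) ≤ ε * ∑ n ∈ Finset.range M, w a b n) ∧
    -- the Poisson law
    ∀ x ε : ℝ, 0 < x → 0 < ε → ∃ r0 : ℕ, ∀ a b : ℕ → ℝ, (∀ n, 1 ≤ a n) → (∀ n, 1 ≤ b n) →
      Monotone (fun n => a n + Real.log (b n)) → Tendsto (fun n => a n + Real.log (b n)) atTop atTop →
      (∃ C : ℝ, ∀ n, a (n + 1) + Real.log (b (n + 1)) ≤ C * (a n + Real.log (b n))) →
      ∀ᵐ α : ℝ, 1 < α → ∀ r : ℕ, r0 ≤ r → ∀ A : Finset ℕ, ∀ᶠ M in atTop,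
        |(∑ n ∈ Finset.range M, if N r (X ⌊b n * α ^ (a n)⌋₊) ⌊b n * α ^ (a n)⌋₊
            ⌊x / V r (X ⌊b n * α ^ (a n)⌋₊)⌋₊ ∈ A then w a b n else 0) -
          poisson x A * ∑ n ∈ Finset.range M, w a b n| ≤ ε * ∑ n ∈ Finset.range M, w a b n := by
  constructor
  · intro ε hε
    obtain ⟨K, r0, h⟩ := lin_lln ε hε
    refine ⟨K, max r0 1, fun a b ha hb hmono hinf hC => ?_⟩
    have gen : ∀ E : ℕ → Set ℕ, (∀ r, max r0 1 ≤ r → DyadicSmall (ε / 4) (E r)) →
        ∀ᵐ α : ℝ, 1 < α → ∀ r : ℕ, max r0 1 ≤ r → ∀ᶠ M in atTop,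
          (∑ n ∈ Finset.range M, if ⌊b n * α ^ (a n)⌋₊ ∈ E r then w a b n else 0) ≤
            ε * ∑ n ∈ Finset.range M, w a b n := by
      intro E hE
      have h1 : ∀ r : ℕ, ∀ᵐ α : ℝ, max r0 1 ≤ r → 1 < α → ∀ᶠ M in atTop,
          (∑ n ∈ Finset.range M, if ⌊b n * α ^ (a n)⌋₊ ∈ E r then w a b n else 0) ≤
            ε * ∑ n ∈ Finset.range M, w a b n := by
        intro r
        by_cases hr : max r0 1 ≤ r
        · have h2 := ae_nat (by positivity) (hE r hr) ha hb hmono hinf hC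
          filter_upwards [h2] with α hα _ hα1
          have h3 := hα hα1 (ε / 2) (by positivity)
          have e : 2 * (ε / 4) + ε / 2 = ε := by ring
          rw [e] at h3
          filter_upwards [h3] with M hM
          exact hM
        · exact Eventually.of_forall fun α hr' => absurd hr' hr
      filter_upwards [ae_all_iff.2 h1] with α hα hα1 r hr
      exact hα r hr hα1
    have main : ∀ L : ℕ → ℕ, (∀ᶠ j : ℕ in atTop, K * j ≤ L j ∧ (L j) ^ 10 ≤ 2 ^ j) → ∀ r, max r0 1 ≤ r →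
        DyadicSmall (ε / 4) {m : ℕ | ∃ t, L (Nat.log 2 m) ≤ t ∧ t ≤ 2 * L (Nat.log 2 m) ∧ Off r ε m t} := by
      intro L hL r hr
      have hr1 : 1 ≤ r := (le_max_right _ _).trans hr
      obtain ⟨j1, hj1⟩ := eventually_atTop.1 (hL.and (large hr1))
      refine ds_mono (h L hL r ((le_max_left _ _).trans hr)) j1 fun m hm hjm hmF => ?_
      obtain ⟨⟨-, g1⟩, g2⟩ := hj1 _ hjm
      obtain ⟨t, ht1, ht2, ht3⟩ := hmF
      have hlt : m < 2 ^ (Nat.log 2 m + 1) := Nat.lt_pow_succ_log_self (by norm_num) m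
      have hL1 : L (Nat.log 2 m) ≤ 2 ^ Nat.log 2 m :=
        (Nat.le_self_pow (by norm_num) _).trans g1
      refine ⟨t, ht1, ht2, ?_⟩
      unfold Off X at ht3
      rw [N_eq hr1 g2 (by rw [pow_succ] at hlt; omega), V_eq] at ht3
      exact ht3
    constructor
    · refine gen (fun r => {m : ℕ | Off r ε m (len m)}) fun r hr => ?_
      refine ds_mono (main nthP ?_ r hr) 0 fun m _ _ hmF => ?_
      · filter_upwards [nthP_low K, nthP_up] with j hj1 hj2
        exact ⟨hj1, hj2⟩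
      · have h1 : 0 ≤ nthP (Nat.log 2 m) := Nat.zero_le _
        exact ⟨len m, le_refl (nthP (Nat.log 2 m)), by
          have : len m = nthP (Nat.log 2 m) := rfl
          omega, hmF⟩
    · intro L hL
      exact gen (fun r => {m : ℕ | ∃ t, L (Nat.log 2 m) ≤ t ∧ t ≤ 2 * L (Nat.log 2 m) ∧ Off r ε m t})
        fun r hr => main L hL r hr
  · intro x ε hx hε
    obtain ⟨r0, h⟩ := lin_pois x (ε / 4) hx (by positivity)
    obtain ⟨c, hc, hV⟩ := vlow
    refine ⟨max r0 1, fun a b ha hb hmono hinf hC => ?_⟩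
    have h1 : ∀ r : ℕ, ∀ A : Finset ℕ, ∀ᵐ α : ℝ, max r0 1 ≤ r → 1 < α → ∀ᶠ M in atTop,
        |(∑ n ∈ Finset.range M, if N r (X ⌊b n * α ^ (a n)⌋₊) ⌊b n * α ^ (a n)⌋₊
            ⌊x / V r (X ⌊b n * α ^ (a n)⌋₊)⌋₊ ∈ A then w a b n else 0) -
          poisson x A * ∑ n ∈ Finset.range M, w a b n| ≤ ε * ∑ n ∈ Finset.range M, w a b n := by
      intro r A
      by_cases hr : max r0 1 ≤ r
      · have hr1 : 1 ≤ r := (le_max_right _ _).trans hr
        obtain ⟨d1, d2⟩ := h r ((le_max_left _ _).trans hr) A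
        have hlen : ∀ᶠ j : ℕ in atTop, TT x r j ≤ 2 * 2 ^ j := by
          have h3 : Tendsto (fun j : ℕ => (j : ℝ) ^ 1 / 2 ^ j) atTop (𝓝 0) :=
            tendsto_pow_const_div_const_pow_of_one_lt 1 (by norm_num)
          have h4 := (h3.const_mul (x / c))
          rw [mul_zero] at h4
          filter_upwards [h4.eventually_lt_const one_pos, eventually_ge_atTop r] with j hj1 hj2
          have hjpos : (0:ℝ) < j := by exact_mod_cast (by omega : 0 < j)
          have h7 := hV r j hr1 hj2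
          have hvp : 0 < Pool.Agent.Y862.SQ.V1 (yy r j) := lt_of_lt_of_le (by positivity) h7
          have h6 : (TT x r j : ℝ) ≤ x / Pool.Agent.Y862.SQ.V1 (yy r j) := Nat.floor_le (by positivity)
          have h8 : x / Pool.Agent.Y862.SQ.V1 (yy r j) ≤ x / c * j := by
            rw [div_le_iff₀ hvp]
            calc x = x / c * j * (c / j) := by field_simp
              _ ≤ x / c * j * Pool.Agent.Y862.SQ.V1 (yy r j) :=
                mul_le_mul_of_nonneg_left h7 (by positivity)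
          have h9 : x / c * (j : ℝ) ≤ 2 ^ j := by
            rw [pow_one, ← mul_div_assoc, div_lt_one (by positivity)] at hj1
            exact hj1.le
          have h10 : (TT x r j : ℝ) ≤ ((2 ^ j : ℕ) : ℝ) := by
            rw [cast_two_pow]
            linarith
          have h11 : TT x r j ≤ 2 ^ j := by exact_mod_cast h10
          omega
        obtain ⟨j1, hj1⟩ := eventually_atTop.1 (hlen.and (large hr1))
        obtain ⟨F, hF⟩ : ∃ F : Set ℕ, F = {m : ℕ | N r (X m) m ⌊x / V r (X m)⌋₊ ∈ A} := ⟨_, rfl⟩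
        have hEF : ∀ m, 1 ≤ m → j1 ≤ Nat.log 2 m → (m ∈ F ↔ m ∈ EP x r A) := by
          intro m hm hjm
          obtain ⟨g1, g2⟩ := hj1 _ hjm
          have hlt : m < 2 ^ (Nat.log 2 m + 1) := Nat.lt_pow_succ_log_self (by norm_num) m
          have e : ⌊x / V r (X m)⌋₊ = TT x r (Nat.log 2 m) := rfl
          rw [hF, Set.mem_ofPred_eq, e]
          unfold X
          rw [N_eq hr1 g2 (by rw [pow_succ] at hlt; omega)]
          rfl
        have d1' : DyadicSmall (poisson x A + ε / 4) F :=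
          ds_mono d1 j1 fun m hm hjm hmF => (hEF m hm hjm).1 hmF
        have d2' : DyadicSmall (1 - poisson x A + ε / 4) Fᶜ :=
          ds_mono d2 j1 fun m hm hjm hmF => fun hmE => hmF ((hEF m hm hjm).2 hmE)
        have h2 := ae_near (by positivity) (poisson_nonneg hx.le A) (poisson_le_one hx.le A) d1' d2'
          ha hb hmono hinf hC
        filter_upwards [h2] with α hα _ hα1
        have h3 := hα hα1 (ε / 2) (by positivity)
        have e : 2 * (ε / 4) + ε / 2 = ε := by ring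
        rw [e] at h3
        filter_upwards [h3] with M hM
        have e2 : (∑ n ∈ Finset.range M, if N r (X ⌊b n * α ^ (a n)⌋₊) ⌊b n * α ^ (a n)⌋₊
            ⌊x / V r (X ⌊b n * α ^ (a n)⌋₊)⌋₊ ∈ A then w a b n else 0) =
            ∑ n ∈ Finset.range M, if ⌊b n * α ^ (a n)⌋₊ ∈ F then wt a b n else 0 := by
          refine Finset.sum_congr rfl fun n _ => ?_
          have hiff : ⌊b n * α ^ (a n)⌋₊ ∈ F ↔ N r (X ⌊b n * α ^ (a n)⌋₊) ⌊b n * α ^ (a n)⌋₊
              ⌊x / V r (X ⌊b n * α ^ (a n)⌋₊)⌋₊ ∈ A := by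
            rw [hF]
            rfl
          by_cases hnF : ⌊b n * α ^ (a n)⌋₊ ∈ F
          · rw [if_pos hnF, if_pos (hiff.1 hnF)]
            rfl
          · rw [if_neg hnF, if_neg (fun h => hnF (hiff.2 h))]
        rw [e2]
        exact hM
      · exact Eventually.of_forall fun α hr' => absurd hr' hr
    have h2 : ∀ᵐ α : ℝ, ∀ r : ℕ, ∀ A : Finset ℕ, max r0 1 ≤ r → 1 < α → ∀ᶠ M in atTop,
        |(∑ n ∈ Finset.range M, if N r (X ⌊b n * α ^ (a n)⌋₊) ⌊b n * α ^ (a n)⌋₊
            ⌊x / V r (X ⌊b n * α ^ (a n)⌋₊)⌋₊ ∈ A then w a b n else 0) -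
          poisson x A * ∑ n ∈ Finset.range M, w a b n| ≤ ε * ∑ n ∈ Finset.range M, w a b n := by
      rw [ae_all_iff]
      intro r
      rw [ae_all_iff]
      exact h1 r
    filter_upwards [h2] with α hα hα1 r hr A
    exact hα r A hr hα1

end Pool.Agent.Results.MP_78b39f_nt.LawsAboveAlmostAll
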