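import Mathlib
import Pool.Agent.R528.RM.Sp4

set_option autoImplicit false

/-!
# Members just above powers in random models of the primes

The question is whether every interval `[2ⁿ, 2ⁿ + pₙ]` contains a prime (`pₙ` the `n`-th prime).  Its
length `~ n log n` is slightly larger than the critical length `(log 2) n log n` predicted by random
models.  We determine, in EVERY sequential random model of the primes, the exact extreme orders of
the number `N(n)` of members in `[gⁿ, gⁿ + pₙ]`, for every integer `g ≥ 2`.  In these models the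
integers are decided one after the other, only integers coprime to a fixed `Q` can be chosen, and
the conditional probability of choosing `n + 1` (coprime to `Q`) given the past is asymptotic to
`(Q / φ(Q)) / log n`; no independence is assumed (for `Q = 1` Cramér's model and the Hawkins random
sieve are examples).  Almost surely

* `limsup N(n) / log n = a / log g`, where `a > 1` solves `a log a - a + 1 = log g`;
* `liminf N(n) / log n = b / log g`, where `b = 0` if `g ≥ 3`, and `0 < b < 1` solves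
  `b log b - b + 1 = log 2` if `g = 2`.

So for `g = 2`, the case of the question, all intervals with `n` large contain more than `κ log n`
members, while for every `g ≥ 3` infinitely many of the intervals contain no member.
-/

open MeasureTheory Filter
open scoped Topology

namespace Pool.Agent.Results.MP_78b39f_nt.PowersInSievedModels

/-- the `n`-th prime, `n ≥ 1`: `p 1 = 2`, `p 2 = 3`, ... -/
noncomputable def p (n : ℕ) : ℕ := Nat.nth Nat.Prime (n - 1)

/-- the number of members of `S` in the interval `[gⁿ, gⁿ + pₙ]` -/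
noncomputable def afterPower (S : Set ℕ) (g n : ℕ) : ℕ :=
  Set.ncard {m : ℕ | m ∈ S ∧ g ^ n ≤ m ∧ m ≤ g ^ n + p n}

open Pool.Agent.R528.RM

lemma afterPower_eq {Ω : Type} {A : ℕ → Set Ω} (ω : Ω) {g : ℕ} (hg : 2 ≤ g) (n : ℕ) :
    afterPower {k | ω ∈ A k} g n = cnt A (g ^ n - 1) (Nat.nth Nat.Prime (n - 1) + 1) ω := by
  rw [cnt_eq_ncard]
  unfold afterPower p
  congr 1
  ext a
  simp only [Set.mem_ofPred_eq]
  have h1 : 1 ≤ g ^ n := Nat.one_le_pow _ _ (by omega)
  refine and_congr_right fun _ => ?_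
  omega

lemma one_lt_log {g : ℕ} (hg : 3 ≤ g) : 1 < Real.log g := by
  have h1 : (3 : ℝ) ≤ g := by exact_mod_cast hg
  rw [Real.lt_log_iff_exp_lt (by linarith)]
  have := Real.exp_one_lt_d9
  linarith

end Pool.Agent.Results.MP_78b39f_nt.PowersInSievedModels

open Pool.Agent.Results.MP_78b39f_nt.PowersInSievedModels

/-- Let `A n` be the event that `n` belongs to a random set adapted to a filtration `ℱ`, let
`Q ≥ 1`, let no integer which is not coprime to `Q` be chosen, and let the conditional probability of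
`A (n + 1)` given `ℱ n`, times `log n`, tend to `Q / φ(Q)` along the `n` with `n + 1` coprime to `Q`,
almost surely.  (1) Let `g ≥ 2`, let `a > 1` satisfy `a log a - a + 1 = log g`, and let `b < 1` be `0`
if `g ≥ 3`, or satisfy `0 < b` and `b log b - b + 1 = log g`.  Then almost surely the number of
members in `[gⁿ, gⁿ + pₙ]`, divided by `log n / log g`, has upper limit `a` and lower limit `b`.
(2) There is a constant `κ > 0` such that almost surely, for all large `n`, the interval
`[2ⁿ, 2ⁿ + pₙ]` contains more than `κ log n` members.  (3) For every `g ≥ 3`, almost surely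
`[gⁿ, gⁿ + pₙ]` contains no member for infinitely many `n`. -/
theorem Pool.Agent.Results.MP_78b39f_nt.PowersInSievedModels.result
    {Ω : Type} [mΩ : MeasurableSpace Ω] (μ : Measure Ω) [IsProbabilityMeasure μ]
    (ℱ : Filtration ℕ mΩ) (A : ℕ → Set Ω) (hA : ∀ n, MeasurableSet[ℱ n] (A n))
    (Q : ℕ) (hQ : 0 < Q) (hcop : ∀ n, ¬ Nat.Coprime n Q → A n = ∅)
    (hd : ∀ᵐ ω ∂μ, Tendsto (fun n : ℕ =>
      (μ[(A (n + 1)).indicator (fun _ => (1 : ℝ)) | ℱ n]) ω * Real.log n)
      (atTop ⊓ 𝓟 {n : ℕ | Nat.Coprime (n + 1) Q}) (𝓝 ((Q : ℝ) / Nat.totient Q))) :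
    (∀ g : ℕ, 2 ≤ g → ∀ a b : ℝ, 1 < a → a * Real.log a - a + 1 = Real.log g → b < 1 →
      ((3 ≤ g ∧ b = 0) ∨ (0 < b ∧ b * Real.log b - b + 1 = Real.log g)) →
      ∀ᵐ ω ∂μ, ∀ ε : ℝ, 0 < ε →
        (∀ᶠ n : ℕ in atTop, (afterPower {k | ω ∈ A k} g n : ℝ) <
          (a + ε) * (Real.log n / Real.log g)) ∧
        (∃ᶠ n : ℕ in atTop, (a - ε) * (Real.log n / Real.log g) <
          afterPower {k | ω ∈ A k} g n) ∧
        (∀ᶠ n : ℕ in atTop, (b - ε) * (Real.log n / Real.log g) <
          afterPower {k | ω ∈ A k} g n) ∧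
        (∃ᶠ n : ℕ in atTop, (afterPower {k | ω ∈ A k} g n : ℝ) <
          (b + ε) * (Real.log n / Real.log g))) ∧
    (∃ κ : ℝ, 0 < κ ∧ ∀ᵐ ω ∂μ, ∀ᶠ n : ℕ in atTop,
      κ * Real.log n < afterPower {k | ω ∈ A k} 2 n) ∧
    (∀ g : ℕ, 3 ≤ g → ∀ᵐ ω ∂μ, ∃ᶠ n : ℕ in atTop, afterPower {k | ω ∈ A k} g n = 0) := by
  have hprof := Pool.Agent.R528.RM.dens_profile (μ := μ) (ℱ := ℱ) hA Q hQ hcop hd
  have main : ∀ g : ℕ, 2 ≤ g → ∀ a b : ℝ, 1 < a → a * Real.log a - a + 1 = Real.log g → b < 1 →
      ((3 ≤ g ∧ b = 0) ∨ (0 < b ∧ b * Real.log b - b + 1 = Real.log g)) →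
      ∀ᵐ ω ∂μ, ∀ ε : ℝ, 0 < ε →
        (∀ᶠ n : ℕ in atTop, (afterPower {k | ω ∈ A k} g n : ℝ) <
          (a + ε) * (Real.log n / Real.log g)) ∧
        (∃ᶠ n : ℕ in atTop, (a - ε) * (Real.log n / Real.log g) <
          afterPower {k | ω ∈ A k} g n) ∧
        (∀ᶠ n : ℕ in atTop, (b - ε) * (Real.log n / Real.log g) <
          afterPower {k | ω ∈ A k} g n) ∧
        (∃ᶠ n : ℕ in atTop, (afterPower {k | ω ∈ A k} g n : ℝ) <
          (b + ε) * (Real.log n / Real.log g)) := by
    intro g hg a b ha hIa hb1 hb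
    have hg' : (2 : ℝ) ≤ g := by exact_mod_cast hg
    have hlg : 0 < Real.log g := Real.log_pos (by linarith)
    have hb0 : 0 ≤ b := by
      rcases hb with h | h
      · exact h.2.ge
      · exact h.1.le
    have hIa' : 1 / Real.log g * Pool.Agent.R528.RM.II a = 1 := by
      unfold Pool.Agent.R528.RM.II
      rw [hIa]
      field_simp
    have hb' : (1 / Real.log g ≤ 1 ∧ b = 0) ∨ (0 < b ∧ 1 / Real.log g * Pool.Agent.R528.RM.II b = 1) := by
      rcases hb with h | h
      · refine Or.inl ⟨?_, h.2⟩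
        rw [div_le_one hlg]
        exact (one_lt_log h.1).le
      · refine Or.inr ⟨h.1, ?_⟩
        unfold Pool.Agent.R528.RM.II
        rw [h.2]
        field_simp
    filter_upwards [Pool.Agent.R528.RM.spar_final (μ := μ) (ℱ := ℱ) hA hQ hprof (Pool.Agent.R528.RM.spar_pow hg)
      (show 0 < 1 / Real.log g by positivity) ha hIa' hb0 hb1 hb'] with ω hω
    intro ε hε
    obtain ⟨h1, h2, h3, h4⟩ := hω ε hε
    have e : ∀ n : ℕ, afterPower {k | ω ∈ A k} g n = Pool.Agent.R528.RM.cnt A (g ^ n - 1) (Nat.nth Nat.Prime (n - 1) + 1) ω :=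
      fun n => afterPower_eq ω hg n
    have e2 : ∀ (x : ℝ) (n : ℕ), x * (Real.log n / Real.log g) = x * (1 / Real.log g) * Real.log n := fun x n => by ring
    simp_rw [e, e2]
    exact ⟨h1, h2, h3, h4⟩
  refine ⟨main, ?_, ?_⟩
  · have hl2 : 0 < Real.log 2 := Real.log_pos (by norm_num)
    have hβ : 1 < 1 / Real.log 2 := by
      rw [lt_div_iff₀ hl2]
      linarith [Real.log_two_lt_d9]
    obtain ⟨a, b, ha, hIa, hb0, hb1, hIb⟩ := Pool.Agent.R528.RM.II_roots hβ
    have hIa' : a * Real.log a - a + 1 = Real.log ((2 : ℕ) : ℝ) := by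
      have : Pool.Agent.R528.RM.II a = Real.log 2 := by
        field_simp at hIa
        exact hIa
      push_cast
      exact this
    have hIb' : b * Real.log b - b + 1 = Real.log ((2 : ℕ) : ℝ) := by
      have : Pool.Agent.R528.RM.II b = Real.log 2 := by
        field_simp at hIb
        exact hIb
      push_cast
      exact this
    refine ⟨b / 2 / Real.log 2, by positivity, ?_⟩
    filter_upwards [main 2 le_rfl a b ha hIa' hb1 (Or.inr ⟨hb0, hIb'⟩)] with ω hω
    filter_upwards [(hω (b / 2) (by linarith)).2.2.1] with n hn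
    refine lt_of_le_of_lt (le_of_eq ?_) hn
    push_cast
    ring
  · intro g hg
    have hlg := one_lt_log hg
    filter_upwards [Pool.Agent.R528.RM.spar_zero (μ := μ) (ℱ := ℱ) hA hQ hprof (Pool.Agent.R528.RM.spar_pow (show 2 ≤ g by omega))
      (show 0 < 1 / Real.log g by positivity) (by rw [div_lt_one (by linarith)]; exact hlg)] with ω hω
    refine hω.mono fun n hn => ?_
    rw [afterPower_eq ω (by omega) n]
    exact hn
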